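import Mathlib
import Pool.Agent.Q157.FreeQuat

/-!
# The replacement number of `ℝ⁴` is infinite

There is a `2`-colouring `c` of `ℝ⁴` such that every colouring obtained from `c` by recolouring
finitely many points is preserved by a nontrivial isometry.  The isometries are left
multiplications by unit quaternions `u_F` which freely generate a free group, indexed by the finite
sets `F` of recoloured points; such a group acts freely on `ℍ ∖ {0}`, and therefore the conditions
on `c` along the orbits can be solved.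
-/

namespace Pool.Agent.Results.MP_d3aff2_co.DimensionFour

open Pool.Agent.Q157.FreeQuat Quaternion

/-! ## Definitions -/

/-- A colouring is distinguishing if only the identity preserves it. -/
def Distinguishing (Γ : Type*) {X : Type*} [Group Γ] [MulAction Γ X] {k : ℕ} (c : X → Fin k) :
    Prop := ∀ g : Γ, (∀ x, c (g • x) = c x) → g = 1

/-- The distinguishing number: the least `k ≥ 1` for which a distinguishing `k`-colouring exists. -/
noncomputable def distNumber (Γ X : Type*) [Group Γ] [MulAction Γ X] : ℕ :=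
  sInf {k | 1 ≤ k ∧ ∃ c : X → Fin k, Distinguishing Γ c}

/-- The replacement number: the least `m` such that every colouring with `distNumber Γ X` colours
can be made distinguishing by changing the colours of at most `m` points, and `⊤` if there is no
such `m`. -/
noncomputable def replNumber (Γ X : Type*) [Group Γ] [MulAction Γ X] : ℕ∞ :=
  ⨅ (m : ℕ) (_ : ∀ c : X → Fin (distNumber Γ X), ∃ c' : X → Fin (distNumber Γ X),
    {x | c' x ≠ c x}.encard ≤ m ∧ Distinguishing Γ c'), (m : ℕ∞)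

/-- The natural action of the group of isometries. -/
instance isoAction (X : Type*) [PseudoEMetricSpace X] : MulAction (X ≃ᵢ X) X where
  smul g x := g x
  one_smul _ := rfl
  mul_smul _ _ _ := rfl

theorem iso_smul {X : Type*} [PseudoEMetricSpace X] (g : X ≃ᵢ X) (x : X) : g • x = g x := rfl

/-- Euclidean space. -/
abbrev Eu (n : ℕ) : Type := EuclideanSpace ℝ (Fin n)

/-! ## Solving the conditions along free orbits -/

theorem cocycle {ι Z : Type*} (θ : FreeGroup ι →* Equiv.Perm Z) (Y : Set Z)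
    (hY : ∀ w z, z ∈ Y → θ w z ∈ Y) (hfree : ∀ w, ∀ z ∈ Y, θ w z = z → w = 1)
    (δ : ι → Z → ZMod 2) :
    ∃ χ : Z → ZMod 2, ∀ i, ∀ z ∈ Y, χ (θ (FreeGroup.of i) z) = χ z + δ i z := by
  classical
  let gen : ι → Equiv.Perm (Z × ZMod 2) := fun i =>
    { toFun := fun p => (θ (FreeGroup.of i) p.1, p.2 + δ i p.1)
      invFun := fun p => ((θ (FreeGroup.of i))⁻¹ p.1, p.2 - δ i ((θ (FreeGroup.of i))⁻¹ p.1))
      left_inv := by
        rintro ⟨z, a⟩
        simp
      right_inv := by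
        rintro ⟨z, a⟩
        simp }
  let ρ : FreeGroup ι →* Equiv.Perm (Z × ZMod 2) := FreeGroup.lift gen
  have hgen : ∀ i p, ρ (FreeGroup.of i) p = (θ (FreeGroup.of i) p.1, p.2 + δ i p.1) := by
    intro i p
    change (FreeGroup.lift gen (FreeGroup.of i)) p = _
    rw [FreeGroup.lift_apply_of]
    rfl
  have hρ : ∀ w p, (ρ w p).1 = θ w p.1 := by
    intro w
    induction w using FreeGroup.induction_on with
    | C1 => intro p; simp
    | of i => intro p; rw [hgen]
    | inv_of i h =>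
      intro p
      have h0 : ρ (FreeGroup.of i) ((ρ (FreeGroup.of i))⁻¹ p) = p := by simp
      have h1 := h ((ρ (FreeGroup.of i))⁻¹ p)
      rw [h0] at h1
      rw [map_inv, map_inv, h1]
      simp
    | mul x y hx hy =>
      intro p
      rw [map_mul, map_mul, Equiv.Perm.mul_apply, Equiv.Perm.mul_apply, hx, hy]
  -- orbit representatives
  let s : Setoid Z :=
    { r := fun z z' => ∃ w, θ w z = z'
      iseqv := ⟨fun z => ⟨1, by simp⟩, fun {z z'} ⟨w, h⟩ => ⟨w⁻¹, by rw [← h]; simp⟩,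
        fun {z z' z''} ⟨w, h⟩ ⟨w', h'⟩ => ⟨w' * w, by
          rw [map_mul, Equiv.Perm.mul_apply, h, h']⟩⟩ }
  let r : Z → Z := fun z => (Quotient.mk s z).out
  have hr : ∀ z, ∃ w, θ w (r z) = z := fun z => Quotient.exact (Quotient.out_eq (Quotient.mk s z))
  choose wd hwd using hr
  refine ⟨fun z => (ρ (wd z) (r z, 0)).2, fun i z hz => ?_⟩
  have hrr : r (θ (FreeGroup.of i) z) = r z := by
    have : Quotient.mk s (θ (FreeGroup.of i) z) = Quotient.mk s z :=
      (Quotient.sound (s := s) ⟨FreeGroup.of i, rfl⟩).symm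
    simp only [r, this]
  have hrY : r z ∈ Y := by
    have h1 := hY (wd z)⁻¹ z hz
    have h2 : θ (wd z)⁻¹ z = r z := by
      rw [map_inv]
      exact (Equiv.symm_apply_eq (θ (wd z))).2 (hwd z).symm
    rwa [h2] at h1
  have hw : wd (θ (FreeGroup.of i) z) = FreeGroup.of i * wd z := by
    have h1 := hwd (θ (FreeGroup.of i) z)
    rw [hrr] at h1
    have h2 : θ (FreeGroup.of i * wd z) (r z) = θ (FreeGroup.of i) z := by
      rw [map_mul, Equiv.Perm.mul_apply, hwd]
    have h3 : θ ((wd (θ (FreeGroup.of i) z))⁻¹ * (FreeGroup.of i * wd z)) (r z) = r z := by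
      rw [map_mul, Equiv.Perm.mul_apply, h2, map_inv]
      exact (Equiv.symm_apply_eq (θ (wd (θ (FreeGroup.of i) z)))).2 h1.symm
    have h4 := hfree _ _ hrY h3
    exact (inv_mul_eq_one.1 h4)
  simp only [hrr, hw]
  rw [map_mul, Equiv.Perm.mul_apply, hgen, hρ, hwd]

/-! ## The isometries -/

/-- Left multiplication by a unit quaternion of norm one. -/
noncomputable def mulIso (u : (ℍ[ℝ])ˣ) (hu : ‖(u : ℍ[ℝ])‖ = 1) : ℍ[ℝ] ≃ᵢ ℍ[ℝ] where
  toFun x := u * x
  invFun x := (u⁻¹ : (ℍ[ℝ])ˣ) * x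
  left_inv x := by
    change ((u⁻¹ : (ℍ[ℝ])ˣ) : ℍ[ℝ]) * ((u : ℍ[ℝ]) * x) = x
    rw [← mul_assoc, Units.inv_mul, one_mul]
  right_inv x := by
    change (u : ℍ[ℝ]) * (((u⁻¹ : (ℍ[ℝ])ˣ) : ℍ[ℝ]) * x) = x
    rw [← mul_assoc, Units.mul_inv, one_mul]
  isometry_toFun := Isometry.of_dist_eq fun x y => by
    rw [dist_eq_norm, dist_eq_norm, ← mul_sub, norm_mul, hu, one_mul]

/-- The corresponding isometry of `ℝ⁴`. -/
noncomputable def euIso (u : (ℍ[ℝ])ˣ) (hu : ‖(u : ℍ[ℝ])‖ = 1) : Eu 4 ≃ᵢ Eu 4 :=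
  (linearIsometryEquivTuple.symm.toIsometryEquiv.trans (mulIso u hu)).trans
    linearIsometryEquivTuple.toIsometryEquiv

theorem euIso_apply (u : (ℍ[ℝ])ˣ) (hu : ‖(u : ℍ[ℝ])‖ = 1) (x : Eu 4) :
    euIso u hu x = linearIsometryEquivTuple ((u : ℍ[ℝ]) * linearIsometryEquivTuple.symm x) := rfl

open Cardinal in
/-- The bad colouring. -/
theorem bad_colouring : ∃ c : Eu 4 → Fin 2, ∀ c' : Eu 4 → Fin 2, {x | c' x ≠ c x}.Finite →
    ¬ Distinguishing (Eu 4 ≃ᵢ Eu 4) c' := by
  classical
  have hinf : Infinite ℍ[ℝ] := Infinite.of_injective (fun r : ℝ => (r : ℍ[ℝ]))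
    (fun a b h => by simpa using h)
  have hcard : #(Finset ℍ[ℝ]) ≤ 𝔠 := by
    rw [mk_finset_of_infinite, mk_quaternion_of_infinite, mk_real]
  obtain ⟨u, hu1, hu2⟩ := exists_free (Finset ℍ[ℝ]) hcard
  let θ : FreeGroup (Finset ℍ[ℝ]) →* Equiv.Perm ℍ[ℝ] :=
    (MulAction.toPermHom (ℍ[ℝ])ˣ ℍ[ℝ]).comp (FreeGroup.lift u)
  have hθ : ∀ w x, θ w x = ((FreeGroup.lift u w : (ℍ[ℝ])ˣ) : ℍ[ℝ]) * x := fun _ _ => rfl
  let ind : Finset ℍ[ℝ] → ℍ[ℝ] → ZMod 2 := fun F x => if x ∈ F then 1 else 0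
  obtain ⟨χ, hχ⟩ := cocycle θ {x | x ≠ 0} (by
    intro w z hz
    rw [Set.mem_ofPred_eq, hθ]
    exact mul_ne_zero (Units.ne_zero _) hz) (by
    intro w z hz h
    rw [hθ] at h
    have h1 : ((FreeGroup.lift u w : (ℍ[ℝ])ˣ) : ℍ[ℝ]) = 1 := mul_right_cancel₀ hz (by
      rw [h, one_mul])
    apply hu2
    rw [map_one]
    exact Units.ext h1) (fun F x => ind F ((u F : ℍ[ℝ]) * x) + ind F x)
  have hχ' : ∀ F (x : ℍ[ℝ]), χ ((u F : ℍ[ℝ]) * x) + ind F ((u F : ℍ[ℝ]) * x) = χ x + ind F x := by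
    intro F x
    by_cases hx : x = 0
    · rw [hx, mul_zero]
    · have h1 := hχ F x hx
      rw [hθ, FreeGroup.lift_apply_of] at h1
      rw [h1]
      have h2 : ∀ a b c : ZMod 2, a + (b + c) + b = a + c := by decide
      exact h2 _ _ _
  let e := linearIsometryEquivTuple
  refine ⟨fun x => (χ (e.symm x) : ZMod 2), fun c' hfin hdis => ?_⟩
  -- the recoloured points
  have hfin' : {h : ℍ[ℝ] | c' (e h) ≠ (χ h : ZMod 2)}.Finite := by
    have h1 := hfin.preimage (e.injective.injOn)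
    refine h1.subset fun h hh => ?_
    change c' (e h) ≠ (χ (e.symm (e h)) : ZMod 2)
    rw [e.symm_apply_apply]
    exact hh
  let F : Finset ℍ[ℝ] := hfin'.toFinset
  have hF : ∀ h : ℍ[ℝ], (c' (e h) : ZMod 2) = χ h + ind F h := by
    intro h
    by_cases hh : h ∈ F
    · have h1 : (c' (e h) : ZMod 2) ≠ χ h := (Set.Finite.mem_toFinset _).1 hh
      have h2 : ∀ a b : ZMod 2, a ≠ b → a = b + 1 := by decide
      simp only [ind, if_pos hh]
      exact h2 _ _ h1
    · have h1 : ¬ ((c' (e h) : ZMod 2) ≠ χ h) := fun h1 => hh ((Set.Finite.mem_toFinset _).2 h1)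
      push Not at h1
      simp only [ind, if_neg hh, add_zero]
      exact h1
  have h1 := hdis (euIso (u F) (hu1 F)) (by
    intro x
    rw [iso_smul, euIso_apply]
    have h2 := hF ((u F : ℍ[ℝ]) * e.symm x)
    have h3 := hF (e.symm x)
    rw [hχ' F (e.symm x), ← h3, e.apply_symm_apply] at h2
    exact h2)
  -- the isometry is not the identity
  have h2 : (u F : ℍ[ℝ]) = 1 := by
    have h3 := congrArg (fun g : Eu 4 ≃ᵢ Eu 4 => g (e 1)) h1
    simp only [euIso_apply] at h3
    change e ((u F : ℍ[ℝ]) * e.symm (e 1)) = e 1 at h3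
    rw [e.symm_apply_apply, mul_one] at h3
    exact e.injective h3
  have h3 : FreeGroup.of F = (1 : FreeGroup (Finset ℍ[ℝ])) := by
    apply hu2
    rw [FreeGroup.lift_apply_of, map_one]
    exact Units.ext h2
  exact FreeGroup.of_ne_one F h3

/-! ## The distinguishing number of `ℝ⁴` is two -/

/-- Five points in general position without symmetries: the origin and `k e_k`, `k = 1, …, 4`. -/
noncomputable def pts (a : Fin 5) : Eu 4 :=
  WithLp.toLp 2 fun i => if a.val = i.val + 1 then (a.val : ℝ) else 0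

theorem pts_apply (a : Fin 5) (i : Fin 4) :
    pts a i = if a.val = i.val + 1 then (a.val : ℝ) else 0 := rfl

/-- Squared distances. -/
noncomputable def sqd (x y : Eu 4) : ℝ := ∑ i, (x i - y i) ^ 2

theorem sqd_eq (x y : Eu 4) : sqd x y = dist x y ^ 2 := by
  rw [EuclideanSpace.dist_eq, Real.sq_sqrt (Finset.sum_nonneg fun i _ => sq_nonneg _)]
  unfold sqd
  refine Finset.sum_congr rfl fun i _ => ?_
  rw [Real.dist_eq, sq_abs]

/-- The table of squared distances. -/
def tab (a b : Fin 5) : ℕ := if a = b then 0 else a.val ^ 2 + b.val ^ 2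

theorem sqd_pts (a b : Fin 5) : sqd (pts a) (pts b) = tab a b := by
  fin_cases a <;> fin_cases b <;>
    simp [sqd, pts_apply, tab, Fin.sum_univ_four] <;> norm_num

theorem tab1 : ∀ a b : Fin 5, tab a b = 1 → (a = 0 ∧ b = 1) ∨ (a = 1 ∧ b = 0) := by decide
theorem tab4 : ∀ a b : Fin 5, tab a b = 4 → (a = 0 ∧ b = 2) ∨ (a = 2 ∧ b = 0) := by decide
theorem tab9 : ∀ b : Fin 5, tab 0 b = 9 → b = 3 := by decide
theorem tab16 : ∀ b : Fin 5, tab 0 b = 16 → b = 4 := by decide

theorem exists_distinguishing : ∃ c : Eu 4 → Fin 2, Distinguishing (Eu 4 ≃ᵢ Eu 4) c := by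
  classical
  refine ⟨fun x => if x ∈ Set.range pts then 1 else 0, fun g hg => ?_⟩
  have hmem : ∀ a, ∃ b, pts b = g (pts a) := by
    intro a
    have h1 := hg (pts a)
    change (if g (pts a) ∈ Set.range pts then (1 : Fin 2) else 0) =
      (if pts a ∈ Set.range pts then (1 : Fin 2) else 0) at h1
    rw [if_pos (Set.mem_range_self a)] at h1
    by_contra hcon
    have hcon' : g (pts a) ∉ Set.range pts := hcon
    rw [if_neg hcon'] at h1
    exact absurd h1 (by decide)
  choose π hπ using hmem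
  have htab : ∀ a b, tab (π a) (π b) = tab a b := by
    intro a b
    have h1 : sqd (pts (π a)) (pts (π b)) = sqd (pts a) (pts b) := by
      rw [hπ, hπ, sqd_eq, sqd_eq, g.dist_eq]
    rw [sqd_pts, sqd_pts] at h1
    exact_mod_cast h1
  have h01 := tab1 (π 0) (π 1) (by rw [htab]; rfl)
  have h02 := tab4 (π 0) (π 2) (by rw [htab]; rfl)
  have h0 : π 0 = 0 := by
    rcases h01 with h | h
    · exact h.1
    · rcases h02 with h' | h'
      · exact h'.1
      · rw [h.1] at h'; exact absurd h'.1 (by decide)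
  have h1 : π 1 = 1 := by
    rcases h01 with h | h
    · exact h.2
    · rw [h0] at h; exact absurd h.1 (by decide)
  have h2 : π 2 = 2 := by
    rcases h02 with h | h
    · exact h.2
    · rw [h0] at h; exact absurd h.1 (by decide)
  have h3 : π 3 = 3 := tab9 _ (by have := htab 0 3; rw [h0] at this; rw [this]; rfl)
  have h4 : π 4 = 4 := tab16 _ (by have := htab 0 4; rw [h0] at this; rw [this]; rfl)
  have hfix : ∀ a, g (pts a) = pts a := by
    intro a
    rw [← hπ]
    fin_cases a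
    · exact congrArg pts h0
    · exact congrArg pts h1
    · exact congrArg pts h2
    · exact congrArg pts h3
    · exact congrArg pts h4
  ext1 x
  change g x = x
  have hd : ∀ a, sqd (g x) (pts a) = sqd x (pts a) := by
    intro a
    rw [sqd_eq, sqd_eq, ← g.dist_eq x (pts a), hfix]
  have d0 := hd 0
  have d1 := hd 1
  have d2 := hd 2
  have d3 := hd 3
  have d4 := hd 4
  simp only [sqd, pts_apply, Fin.sum_univ_four] at d0 d1 d2 d3 d4
  norm_num at d0 d1 d2 d3 d4
  have e0 : (g x) 0 = x 0 := by linarith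
  have e1 : (g x) 1 = x 1 := by linarith
  have e2 : (g x) 2 = x 2 := by linarith
  have e3 : (g x) 3 = x 3 := by linarith
  ext i
  fin_cases i
  · exact e0
  · exact e1
  · exact e2
  · exact e3

/-- The map `x ↦ -x`. -/
noncomputable def negIso : Eu 4 ≃ᵢ Eu 4 := (LinearIsometryEquiv.neg ℝ).toIsometryEquiv

theorem negIso_ne : negIso ≠ 1 := by
  intro h
  have h1 := congrArg (fun g : Eu 4 ≃ᵢ Eu 4 => g (pts 1) 0) h
  change (-(pts 1)) 0 = pts 1 0 at h1
  rw [PiLp.neg_apply, pts_apply] at h1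
  norm_num at h1

theorem distNumber_four : distNumber (Eu 4 ≃ᵢ Eu 4) (Eu 4) = 2 := by
  unfold distNumber
  obtain ⟨c, hc⟩ := exists_distinguishing
  have h2 : 2 ∈ {k | 1 ≤ k ∧ ∃ c : Eu 4 → Fin k, Distinguishing (Eu 4 ≃ᵢ Eu 4) c} :=
    ⟨by norm_num, c, hc⟩
  refine le_antisymm (Nat.sInf_le h2) (le_csInf ⟨2, h2⟩ ?_)
  rintro k ⟨hk, d, hd⟩
  by_contra hcon
  have hk1 : k = 1 := by omega
  subst hk1
  exact negIso_ne (hd negIso fun x => Subsingleton.elim _ _)

theorem replNumber_four : replNumber (Eu 4 ≃ᵢ Eu 4) (Eu 4) = ⊤ := by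
  unfold replNumber
  rw [iInf_eq_top]
  intro m
  rw [iInf_eq_top]
  intro h
  exfalso
  rw [distNumber_four] at h
  obtain ⟨c, hc⟩ := bad_colouring
  obtain ⟨c', h1, h2⟩ := h c
  exact hc c' (Set.finite_of_encard_le_coe h1) h2

/-- **The replacement number of `ℝ⁴` is infinite** (for every `m` there is a colouring with
`distNumber = 2` colours that cannot be made distinguishing by recolouring at most `m` points); in
particular it is not true that the replacement number of `ℝⁿ` is finite for every `n ≥ 1`. In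
fact one `2`-colouring of `ℝ⁴` cannot be made distinguishing by any finite number of changes. -/
theorem result :
    distNumber (Eu 4 ≃ᵢ Eu 4) (Eu 4) = 2 ∧
    replNumber (Eu 4 ≃ᵢ Eu 4) (Eu 4) = ⊤ ∧
    (∃ c : Eu 4 → Fin 2, ∀ c' : Eu 4 → Fin 2, {x | c' x ≠ c x}.Finite →
      ¬ Distinguishing (Eu 4 ≃ᵢ Eu 4) c') ∧
    ¬ ∀ n : ℕ, 1 ≤ n → replNumber (Eu n ≃ᵢ Eu n) (Eu n) < ⊤ :=
  ⟨distNumber_four, replNumber_four, bad_colouring, fun h =>
    absurd (h 4 (by norm_num)) (by rw [replNumber_four]; exact lt_irrefl _)⟩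

end Pool.Agent.Results.MP_d3aff2_co.DimensionFour
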